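import Mathlib
import Pool.Agent.X6.ProdInt

/-!
# MP_078e15_co, Q1: every set of positive integers containing 1 is a product intersection set

There is one countable commutative semigroup `S` for which `H*_N(S)` consists of all sets of
positive integers containing `1`. So the answer to Q1 is no: the negated form holds.

Construction: `S` consists of zero, the powers `x_{h,r}^k` of generators `x_{h,r}` and elements
`z_h`, with `x_{h,r}^j x_{h,r}^k = x_{h,r}^{j+k}` if `j + k < h`, `= z_h` if `j + k = h`, and all
other products zero. Given `X`, take `A_q = {0} ∪ {x_{h,r} : h ∉ X, r ≥ q}`.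
-/

namespace Pool.Agent.Results.MP_078e15_co.AllRealised

open Pool.Agent.X6.ProdInt

universe u

/-- The collection `H*_N(S)` of all `H(A_q)`, where `(A_q)` ranges over the asymptotically strictly
decreasing sequences of subsets of the semigroup `S`. -/
def HStar (S : Type u) [Semigroup S] : Set (Set ℕ) :=
  {X | ∃ A : ℕ → Set S, AsympStrictDecr A ∧ prodIntSet A = X}

/-- There is a countable commutative semigroup `S` such that `H*_N(S)` is the collection of all
sets of positive integers that contain `1`. -/
theorem result :
    ∃ (S : Type u) (_ : CommSemigroup S), Countable S ∧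
      HStar S = {X : Set ℕ | 0 ∉ X ∧ 1 ∈ X} := by
  obtain ⟨S, inst, hc, hS⟩ := exists_universal.{u, 0}
  refine ⟨S, inst, hc, ?_⟩
  ext X
  constructor
  · rintro ⟨A, -, rfl⟩
    exact ⟨zero_notMem_prodIntSet A, one_mem_prodIntSet A⟩
  · rintro ⟨h0, h1⟩
    obtain ⟨B, hB, -, hH⟩ := hS X h1 h0
    exact ⟨B, hB, hH ℕ id Function.surjective_id⟩

end Pool.Agent.Results.MP_078e15_co.AllRealised
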